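import Pool.Agent.Run7.h717.HE.Fin

/-!
# A Hom-Ext quiver whose relations are not monomial

For the quiver `Q` of type `D₄` with arrows `a → o`, `b → o`, `o → c`, the modules
`P c ⊂ P a, P b ⊂ I c` (all nonzero multiplicities are one) form an exceptional collection without
extensions. Its Hom-Ext quiver is a square, and the relations are the multiples of one
non-monomial relation: the square commutes up to a nonzero scalar.
-/

set_option autoImplicit false

open CategoryTheory

namespace Pool.Agent.Results.MP_2a1499_al.CommutativeSquare

open Pool.Agent.H717.HE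

theorem result (k : Type) [Field k] [IsAlgClosed k] :
    ∃ (V : Type) (_ : Fintype V) (_ : Quiver.{0} V),
      (∀ u v : V, Finite (u ⟶ v)) ∧
      (∀ (v : V) (p : Quiver.Path v v), p = Quiver.Path.nil) ∧
      ∃ (m : ℕ) (X : Fin m → Rep k V),
        (∀ (i : Fin m) (v : Paths V), FiniteDimensional k ((X i).obj v)) ∧
        IsExceptionalCollection X ∧
        Nonempty (Arrows k X) ∧
        ∀ H : Arrows k X, ¬ H.IsMonomial := by
  refine ⟨V4, inferInstance, inferInstance, fun u v => ?_, acyclic, 4, X4 k, X4_fd,
    X4_exceptional, X4_nonempty, X4_not_monomial⟩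
  have : Subsingleton (u ⟶ v) := ⟨arr_sub⟩
  infer_instance

end Pool.Agent.Results.MP_2a1499_al.CommutativeSquare
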